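import Pool.Agent.H958R6.Stmts

set_option autoImplicit false

/-! Task W of project H958-KNIGHT. -/

namespace Pool.Agent.H224R3.KN

open Finset H958R6

lemma c_succ (j : ℕ) : ((j : ℚ) + 1) * c (j + 1) = (2 * j + 1) / 2 * c j := by
  unfold c
  have h := Nat.succ_mul_centralBinom_succ j
  rw [Nat.centralBinom_eq_two_mul_choose, Nat.centralBinom_eq_two_mul_choose] at h
  have h' : ((j : ℚ) + 1) * ((2 * (j + 1)).choose (j + 1) : ℚ) =
      2 * (2 * j + 1) * ((2 * j).choose j : ℚ) := by exact_mod_cast h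
  rw [pow_succ]
  rw [mul_div_assoc', h']
  field_simp
  ring

lemma tele (J : ℕ) : ∀ p : ℕ, ∑ j ∈ range (J + 1), c j * c (J + 1 + p - j) /
    (2 * ((J + 1 + p : ℕ) - j : ℚ) - 1) = (2 * J + 1) / (2 * (J + 1 + p)) * (c J * c p) := by
  induction J with
  | zero =>
    intro p
    rw [Finset.sum_range_one]
    have h := c_succ p
    have hp : (0 : ℚ) < (p : ℚ) + 1 := by positivity
    have h1 : c (p + 1) = (2 * p + 1) / 2 * c p / ((p : ℚ) + 1) := by
      rw [← h]; field_simp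
    rw [show 0 + 1 + p - 0 = p + 1 by omega, h1]
    push_cast
    have h2 : (2 * (1 + (p : ℚ) - 0) - 1) = 2 * p + 1 := by ring
    rw [h2]
    have h3 : (0 : ℚ) < 2 * p + 1 := by positivity
    have h4 : (0 : ℚ) < 0 + 1 + (p : ℚ) := by positivity
    field_simp
    ring
  | succ J ih =>
    intro p
    rw [Finset.sum_range_succ]
    have h1 := ih (p + 1)
    have h2 : ∑ j ∈ range (J + 1), c j * c (J + 1 + 1 + p - j) /
        (2 * ((J + 1 + 1 + p : ℕ) - j : ℚ) - 1) =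
        ∑ j ∈ range (J + 1), c j * c (J + 1 + (p + 1) - j) /
        (2 * ((J + 1 + (p + 1) : ℕ) - j : ℚ) - 1) := by
      refine Finset.sum_congr rfl fun j _ => ?_
      rw [show J + 1 + 1 + p = J + 1 + (p + 1) by omega]
    rw [h2, h1, show J + 1 + 1 + p - (J + 1) = p + 1 by omega]
    have h3 := c_succ J
    have h4 := c_succ p
    have h5 : (0 : ℚ) < (p : ℚ) + 1 := by positivity
    have h6 : (0 : ℚ) < 2 * (J : ℚ) + 1 := by positivity
    have h7 : c (p + 1) = (2 * p + 1) / 2 * c p / ((p : ℚ) + 1) := by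
      rw [← h4]; field_simp
    have h8 : c J = 2 * ((J : ℚ) + 1) / (2 * J + 1) * c (J + 1) := by
      field_simp
      field_simp at h3
      linarith
    rw [h7, h8]
    push_cast
    have h9 : (2 * ((J : ℚ) + 1 + 1 + p - (J + 1)) - 1) = 2 * p + 1 := by ring
    rw [h9]
    have h10 : (0 : ℚ) < 2 * p + 1 := by positivity
    have h11 : (0 : ℚ) < (J : ℚ) + 1 + (p + 1) := by positivity
    have h12 : (0 : ℚ) < (J : ℚ) + 1 + 1 + p := by positivity
    field_simp
    ring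

/-- the weights -/
lemma weight (m j : ℕ) (hj : j < m) (x : ℚ) :
    (2 * j + 1 : ℚ) / (2 * (m : ℚ) - 2 * j - 1) * x = 2 * m * (x / (2 * ((m : ℚ) - j) - 1)) - x := by
  have h1 : (0 : ℚ) < 2 * ((m : ℚ) - j) - 1 := by
    have : (j : ℚ) + 1 ≤ m := by exact_mod_cast hj
    linarith
  have h2 : 2 * (m : ℚ) - 2 * j - 1 = 2 * ((m : ℚ) - j) - 1 := by ring
  rw [h2]
  field_simp
  ring

lemma wsum (J p : ℕ) : ∑ j ∈ range (J + 1),
    (2 * j + 1 : ℚ) / (2 * ((J + 1 + p : ℕ) : ℚ) - 2 * j - 1) * (c j * c (J + 1 + p - j)) =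
    (2 * J + 1) * (c J * c p) - ∑ j ∈ range (J + 1), c j * c (J + 1 + p - j) := by
  have h1 : ∀ j ∈ range (J + 1),
      (2 * j + 1 : ℚ) / (2 * ((J + 1 + p : ℕ) : ℚ) - 2 * j - 1) * (c j * c (J + 1 + p - j)) =
      2 * ((J + 1 + p : ℕ) : ℚ) * (c j * c (J + 1 + p - j) / (2 * (((J + 1 + p : ℕ) : ℚ) - j) - 1))
        - c j * c (J + 1 + p - j) := by
    intro j hj
    have := Finset.mem_range.1 hj
    exact weight (J + 1 + p) j (by omega) _
  rw [Finset.sum_congr rfl h1, Finset.sum_sub_distrib, ← Finset.mul_sum, tele J p]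
  congr 1
  push_cast
  have : (0 : ℚ) < (J : ℚ) + 1 + p := by positivity
  field_simp

/-- the reflection of one term -/
lemma refl_term (m i : ℕ) (hi : i < m) :
    ((m : ℚ) - ((m - 1 - i : ℕ) : ℚ)) / (((m - 1 - i : ℕ) : ℚ) + 1) *
      (c (m - 1 - i) * c (m - (m - 1 - i))) =
    (2 * i + 1 : ℚ) / (2 * (m : ℚ) - 2 * i - 1) * (c i * c (m - i)) := by
  obtain ⟨p, rfl⟩ : ∃ p, m = i + 1 + p := ⟨m - (i + 1), by omega⟩
  rw [show i + 1 + p - 1 - i = p by omega, show i + 1 + p - p = i + 1 by omega,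
    show i + 1 + p - i = p + 1 by omega]
  have h3 := c_succ i
  have h4 := c_succ p
  have h5 : (0 : ℚ) < (p : ℚ) + 1 := by positivity
  have h6 : (0 : ℚ) < (i : ℚ) + 1 := by positivity
  have h7 : c (p + 1) = (2 * p + 1) / 2 * c p / ((p : ℚ) + 1) := by
    rw [← h4]; field_simp
  have h8 : c (i + 1) = (2 * i + 1) / 2 * c i / ((i : ℚ) + 1) := by
    rw [← h3]; field_simp
  rw [h7, h8]
  push_cast
  have h9 : (i : ℚ) + 1 + p - p = i + 1 := by ring
  have h10 : 2 * ((i : ℚ) + 1 + p) - 2 * i - 1 = 2 * p + 1 := by ring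
  rw [h9, h10]
  have h11 : (0 : ℚ) < 2 * p + 1 := by positivity
  field_simp

lemma refl_sum (m a : ℕ) (ha : a ≤ m) :
    ∑ j ∈ Finset.Ico a m, ((m : ℚ) - j) / (j + 1) * (c j * c (m - j)) =
      ∑ i ∈ range (m - a), (2 * i + 1 : ℚ) / (2 * (m : ℚ) - 2 * i - 1) * (c i * c (m - i)) := by
  symm
  refine Finset.sum_bij' (fun i _ => m - 1 - i) (fun j _ => m - 1 - j) ?_ ?_ ?_ ?_ ?_
  · intro i hi
    rw [Finset.mem_range] at hi
    rw [Finset.mem_Ico]
    omega
  · intro j hj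
    rw [Finset.mem_Ico] at hj
    rw [Finset.mem_range]
    omega
  · intro i hi
    rw [Finset.mem_range] at hi
    show m - 1 - (m - 1 - i) = i
    omega
  · intro j hj
    rw [Finset.mem_Ico] at hj
    show m - 1 - (m - 1 - j) = j
    omega
  · intro i hi
    rw [Finset.mem_range] at hi
    exact (refl_term m i (by omega)).symm

theorem taskW : TaskConv → TaskW := by
  rintro ⟨hc1, -, hc3, -, -, -⟩
  have f1 : ∀ l : ℕ, (range (2 * l + 1 + 1)).filter (fun j => 2 * j < 2 * l + 1) = range (l + 1) := by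
    intro l; ext j; simp only [Finset.mem_filter, Finset.mem_range]; omega
  have f2 : ∀ l : ℕ, (range (2 * l + 1)).filter (fun j => 2 * j < 2 * l) = range l := by
    intro l; ext j; simp only [Finset.mem_filter, Finset.mem_range]; omega
  have f3 : ∀ l : ℕ, (range (2 * l + 1 + 1)).filter (fun j => 2 * l + 1 ≤ 2 * j) =
      insert (2 * l + 1) (Finset.Ico (l + 1) (2 * l + 1)) := by
    intro l; ext j
    simp only [Finset.mem_filter, Finset.mem_range, Finset.mem_insert, Finset.mem_Ico]; omega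
  have f4 : ∀ l : ℕ, (range (2 * l + 1)).filter (fun j => 2 * l ≤ 2 * j) =
      insert (2 * l) (Finset.Ico l (2 * l)) := by
    intro l; ext j
    simp only [Finset.mem_filter, Finset.mem_range, Finset.mem_insert, Finset.mem_Ico]; omega
  have s1 : ∀ l : ℕ, ∑ j ∈ range (l + 1),
      (2 * j + 1 : ℚ) / (2 * ((2 * l + 1 : ℕ) : ℚ) - 2 * j - 1) * (c j * c (2 * l + 1 - j)) =
      (2 * l + 1) * c l ^ 2 - 1 / 2 := by
    intro l
    have h1 := hc1 l
    rw [f1] at h1
    have h2 := wsum l l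
    rw [show l + 1 + l = 2 * l + 1 by omega] at h2
    rw [h2, h1]
    ring
  have s2 : ∀ l : ℕ, 1 ≤ l → ∑ j ∈ range l,
      (2 * j + 1 : ℚ) / (2 * ((2 * l : ℕ) : ℚ) - 2 * j - 1) * (c j * c (2 * l - j)) =
      2 * l * c l ^ 2 - (1 - c l ^ 2) / 2 := by
    intro l hl
    obtain ⟨k, rfl⟩ : ∃ k, l = k + 1 := ⟨l - 1, by omega⟩
    have h1 := hc3 (k + 1)
    rw [f2] at h1
    have h2 := wsum k (k + 1)
    rw [show k + 1 + (k + 1) = 2 * (k + 1) by omega] at h2
    rw [h2, h1]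
    have h3 := c_succ k
    push_cast
    have h4 : (2 * (k : ℚ) + 1) * (c k * c (k + 1)) = 2 * ((k : ℚ) + 1) * c (k + 1) ^ 2 := by
      have : (2 * (k : ℚ) + 1) * c k = 2 * (((k : ℚ) + 1) * c (k + 1)) := by
        rw [h3]; ring
      calc (2 * (k : ℚ) + 1) * (c k * c (k + 1)) = ((2 * (k : ℚ) + 1) * c k) * c (k + 1) := by ring
        _ = _ := by rw [this]; ring
    rw [h4]
  refine ⟨?_, ?_, ?_, ?_⟩
  · intro l
    rw [f1]
    exact s1 l
  · intro l hl
    rw [f2]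
    exact s2 l hl
  · intro l
    rw [f3, Finset.sum_insert (by simp)]
    have h0 : ((((2 * l + 1 : ℕ) : ℚ)) - ((2 * l + 1 : ℕ) : ℚ)) = 0 := sub_self _
    rw [h0, zero_div, zero_mul, zero_add]
    rw [refl_sum (2 * l + 1) (l + 1) (by omega), show 2 * l + 1 - (l + 1) = l by omega]
    have h1 := s1 l
    rw [Finset.sum_range_succ, show 2 * l + 1 - l = l + 1 by omega] at h1
    have h2 := c_succ l
    have h3 : (2 * (l : ℚ) + 1) / (2 * ((2 * l + 1 : ℕ) : ℚ) - 2 * l - 1) = 1 := by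
      push_cast
      have : (0 : ℚ) < 2 * l + 1 := by positivity
      rw [show 2 * (2 * (l : ℚ) + 1) - 2 * l - 1 = 2 * l + 1 by ring]
      exact div_self this.ne'
    rw [h3, one_mul] at h1
    have h4 : (2 * (l : ℚ) + 1) * c l = 2 * (((l : ℚ) + 1) * c (l + 1)) := by
      rw [h2]; ring
    have h5 : (2 * (l : ℚ) + 1) * c l ^ 2 = 2 * ((l : ℚ) + 1) * (c l * c (l + 1)) := by
      calc (2 * (l : ℚ) + 1) * c l ^ 2 = ((2 * (l : ℚ) + 1) * c l) * c l := by ring
        _ = _ := by rw [h4]; ring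
    have h6 : 2 * ((l : ℚ) + 1) * c (l + 1) ^ 2 = (2 * (l : ℚ) + 1) * (c l * c (l + 1)) := by
      calc 2 * ((l : ℚ) + 1) * c (l + 1) ^ 2 = (2 * (((l : ℚ) + 1) * c (l + 1))) * c (l + 1) := by ring
        _ = _ := by rw [← h4]; ring
    rw [h6]
    linarith
  · intro l hl
    rw [f4, Finset.sum_insert (by simp)]
    have h0 : ((((2 * l : ℕ) : ℚ)) - ((2 * l : ℕ) : ℚ)) = 0 := sub_self _
    rw [h0, zero_div, zero_mul, zero_add]
    rw [refl_sum (2 * l) l (by omega), show 2 * l - l = l by omega, s2 l hl]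
    ring

end Pool.Agent.H224R3.KN
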